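import Mathlib
import Pool.Agent.Lib.AC0IP.ExMain
import Pool.Agent.Lib.AC0IP.ExUpper

set_option autoImplicit false

namespace Pool.Agent.Results.MP_76375d_lc.ConstantDepth

open Pool.Agent.AC0IP

/-- Let `k ≥ 3` and consider `k`-CNF formulas with `v` variables, given by `N = (2 v) ^ k` bits.
If `k`-SAT is decided by exact counting of witnesses of `E.len` bits, where the witness predicates
and the binary digits of the threshold are computed by circuits with `S` gates and depth `d`,
then `E.len` is `N` up to polylogarithmic factors; whereas `k`-SAT is decided by witnesses of `v`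
bits with threshold `1` (existence of a witness), `k`-UNSAT by exact counting of witnesses of `v`
bits with threshold `0`, and every set of formulas by exact counting of witnesses of `N` bits. -/
theorem result (k : ℕ) (hk : 3 ≤ k) (v : ℕ) :
    (∀ (S d : ℕ) (E : Counting (Clause k v)), E.Small S d → E.Exactly (SAT k v) →
      v ^ k ≤ (5 * k) ^ k * (E.len + v ^ (k - 1)) *
        (392 * Nat.log 2 (S + E.len + v + 2)) ^ (d + 2)) ∧
    (∃ E : Counting (Clause k v), E.len = v ∧ E.Small 1 1 ∧ (∀ z, E.threshold z = 1) ∧
      E.AtLeast (SAT k v)) ∧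
    (∃ E : Counting (Clause k v), E.len = v ∧ E.Small 1 1 ∧ (∀ z, E.threshold z = 0) ∧
      E.Exactly (UNSAT k v)) ∧
    ∀ L : Set (Clause k v → Bool), ∃ E : Counting (Clause k v), E.len = (2 * v) ^ k ∧
      E.Small 1 1 ∧ E.Exactly L := by
  refine ⟨fun S d E hS hE => ex_lower k v S d hk E hS hE, ex_sat k v, ex_unsat k v,
    fun L => ?_⟩
  obtain ⟨E, h1, h2, h3⟩ := ex_all (Clause k v) L
  refine ⟨E, ?_, h2, h3⟩
  rw [h1, Fintype.card_fun, Fintype.card_prod, Fintype.card_fin, Fintype.card_fin,
    Fintype.card_bool, mul_comm v 2]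

end Pool.Agent.Results.MP_76375d_lc.ConstantDepth
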