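import Mathlib
import Pool.Agent.Lib.LocalCount.Queries
import Pool.Agent.Lib.LocalCount.Sharp2

set_option autoImplicit false

namespace Pool.Agent.Results.MP_76375d_lc.LocalViews

open Finset Equiv Pool.Agent.LocalCount

/-- The view of length `r` from the vertex `v`: the labels of `v, π v, …, π^(r-1) v`. -/
def view {n k : ℕ} (π : Perm (Fin n)) (y : Fin n → Fin k) (r : ℕ) (v : Fin n) : Fin r → Fin k :=
  fun i => y ((π ^ (i : ℕ)) v)

/-- The backward view of length `s`: the labels of `π⁻¹ v, …, π^(-s) v`. -/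
def back {n k : ℕ} (π : Perm (Fin n)) (y : Fin n → Fin k) (s : ℕ) (v : Fin n) : Fin s → Fin k :=
  fun i => y ((π⁻¹ ^ ((i : ℕ) + 1)) v)

/-- Weighted counting: for each labelling `y` the scheme `T` gets the views and the backward views
of all points, then asks for values of `π` and `π⁻¹` at points of its choice, then gives a
weight. -/
noncomputable def count {k : ℕ} (r s n : ℕ)
    (T : (Fin n → Fin r → Fin k) → (Fin n → Fin s → Fin k) → Tree n ℝ) (π : Perm (Fin n)) : ℝ :=
  ∑ y : Fin n → Fin k, (T (view π y r) (back π y s)).eval π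

/-- The number of labellings `y` which the scheme `T` accepts. -/
noncomputable def number {k : ℕ} (r s n : ℕ)
    (T : (Fin n → Fin r → Fin k) → (Fin n → Fin s → Fin k) → Tree n Prop)
    (π : Perm (Fin n)) : ℕ :=
  Nat.card {y : Fin n → Fin k // (T (view π y r) (back π y s)).eval π}

/-- In every view `(a, b)` one has `a = b`, and both labels occur. -/
def Split {n : ℕ} (f : Fin n → Fin 2 → Fin 2) : Prop :=
  (∀ v, f v 0 = f v 1) ∧ (∃ v, f v 0 = 0) ∧ ∃ v, f v 0 = 1

variable {n k r s : ℕ}

theorem view_eq_of {π π' : Perm (Fin n)} {y : Fin n → Fin k}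
    (h : ∀ i < r, ∀ v, y ((π ^ i) v) = y ((π' ^ i) v)) : view π y r = view π' y r := by
  funext v i
  exact h i i.2 v

theorem back_eq_of {π π' : Perm (Fin n)} {y : Fin n → Fin k}
    (h : ∀ i ≤ s, ∀ v, y ((π⁻¹ ^ i) v) = y ((π'⁻¹ ^ i) v)) : back π y s = back π' y s := by
  funext v i
  exact h (i + 1) i.2 v

theorem part1 {q : ℕ} (hk : 1 ≤ k) (hr : 1 ≤ r)
    (hn : max r s * (k ^ (2 * (r - 1 + s)) + 2 * q + 1) ≤ n)
    {α : Type} (T : (Fin n → Fin r → Fin k) → (Fin n → Fin s → Fin k) → Tree n α)
    (hT : ∀ f g, (T f g).Asks q) (w : α → ℝ) (t : ℝ)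
    (H : ∀ π : Perm (Fin n), (∀ v, max r s ≤ Function.minimalPeriod π v) → ¬ Connected π →
      ∑ y : Fin n → Fin k, w ((T (view π y r) (back π y s)).eval π) = t)
    (π : Perm (Fin n)) (hc : Connected π) :
    ∑ y : Fin n → Fin k, w ((T (view π y r) (back π y s)).eval π) = t := by
  have : Nonempty (Fin k) := ⟨⟨0, hk⟩⟩
  refine queried (κ := Fin k) (s := s) hr (q := q) (by rw [Fintype.card_fin]; exact hn)
    (fun π y => w ((T (view π y r) (back π y s)).eval π))
    (fun π y => (T (view π y r) (back π y s)).heads π)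
    (fun π y => Tree.heads_card π q _ (hT _ _)) (fun π π' y h hb h' => ?_) t hc H
  have e := Tree.eval_eq π π' (T (view π y r) (back π y s)) h'
  rw [← view_eq_of h, ← back_eq_of hb]
  exact ⟨by rw [e.1], e.2⟩

theorem long_of_connected (hn : 2 ≤ n) (hr : r ≤ n) {π : Perm (Fin n)}
    (h : Connected π) (v : Fin n) : r ≤ Function.minimalPeriod π v := by
  refine le_trans hr ?_
  by_contra hlt
  push Not at hlt
  have hpos : 0 < Function.minimalPeriod π v :=
    Function.minimalPeriod_pos_of_mem_periodicPts
      (Function.Injective.mem_periodicPts π.injective v)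
  have h2 : (⇑π)^[Function.minimalPeriod π v] v = v := Function.isPeriodicPt_minimalPeriod π v
  rw [Perm.iterate_eq_pow] at h2
  have := pow_injOn hn h v hlt (b := 0) (by omega) (by simpa using h2)
  omega

theorem connected_finRotate (hn2 : 2 ≤ n) : Connected (finRotate n) := by
  intro a b
  have hcyc : (finRotate n).IsCycle := isCycle_finRotate_of_le hn2
  have hsup : (finRotate n).support = univ := support_finRotate_of_le hn2
  apply hcyc.sameCycle
  · have : a ∈ (finRotate n).support := by rw [hsup]; simp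
    simpa using this
  · have : b ∈ (finRotate n).support := by rw [hsup]; simp
    simpa using this

theorem part2 {q : ℕ} (hk : 1 ≤ k) (hr : 1 ≤ r)
    (hn : max r s * (k ^ (2 * (r - 1 + s)) + 2 * q + 1) ≤ n)
    (T : (Fin n → Fin r → Fin k) → (Fin n → Fin s → Fin k) → Tree n Prop)
    (hT : ∀ f g, (T f g).Asks q) (t : ℕ) :
    ∃ π : Perm (Fin n), (∀ v, max r s ≤ Function.minimalPeriod π v) ∧
      ¬ (¬ Connected π ↔ number r s n T π = t) := by
  classical
  have hk1 : 1 ≤ k ^ (2 * (r - 1 + s)) := Nat.one_le_pow _ _ hk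
  have hm : 1 ≤ max r s := le_trans hr (le_max_left _ _)
  have hn2 : 2 ≤ n := by
    have : 1 * 2 ≤ max r s * (k ^ (2 * (r - 1 + s)) + 2 * q + 1) :=
      Nat.mul_le_mul hm (by omega)
    omega
  have hrn : max r s ≤ n := by
    have : max r s * 1 ≤ max r s * (k ^ (2 * (r - 1 + s)) + 2 * q + 1) :=
      Nat.mul_le_mul le_rfl (by omega)
    omega
  by_contra hcon
  push Not at hcon
  have hcount : ∀ π : Perm (Fin n), (∑ y : Fin n → Fin k,
      (fun p : Prop => if p then (1 : ℝ) else 0) ((T (view π y r) (back π y s)).eval π)) =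
        number r s n T π := by
    intro π
    unfold number
    rw [Finset.sum_boole, Nat.card_eq_fintype_card, Fintype.card_subtype]
  have hc : Connected (finRotate n) := connected_finRotate hn2
  have h2 := part1 hk hr hn T hT (fun p : Prop => if p then (1 : ℝ) else 0) (t : ℝ) (by
    intro π hlong hc
    rw [hcount]
    exact_mod_cast ((hcon π hlong).1 hc)) _ hc
  rw [hcount] at h2
  have h3 : number r s n T (finRotate n) = t := by exact_mod_cast h2
  exact (hcon _ (long_of_connected hn2 hrn hc)).2 h3 hc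

theorem partB (π : Perm (Fin n)) :
    ¬ Connected π ↔ ∃ y : Fin n → Fin 2, Split (view π y 2) := by
  classical
  constructor
  · intro h
    unfold Connected at h
    push Not at h
    obtain ⟨a, b, hab⟩ := h
    let y : Fin n → Fin 2 := fun x => if π.SameCycle a x then 0 else 1
    refine ⟨y, ?_, ⟨a, ?_⟩, ⟨b, ?_⟩⟩
    · intro v
      simp [view, y, Perm.sameCycle_apply_right]
    · simp [view, y, Perm.SameCycle.refl π a]
    · simp [view, y, hab]
  · rintro ⟨y, h1, ⟨a, h2⟩, ⟨b, h3⟩⟩ hc
    have hy : ∀ x, y (π x) = y x := by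
      intro x
      have := h1 x
      simpa [view] using this.symm
    have hy2 : ∀ i : ℕ, y ((π ^ i) a) = y a := by
      intro i
      induction i with
      | zero => simp
      | succ i ih => rw [pow_succ', Perm.mul_apply, hy, ih]
    obtain ⟨i, _, hi⟩ := (hc a b).exists_pow_eq'
    have h4 := hy2 i
    rw [hi] at h4
    simp only [view, Fin.val_zero, pow_zero, Perm.one_apply] at h2 h3
    rw [h2, h3] at h4
    exact absurd h4 (by decide)

theorem partSharp {n k : ℕ} (h : 16 * n ≤ (k + 1) ^ 2) :
    ∃ w : (Fin n → Fin 2 → Fin k) → ℝ, ∀ π : Perm (Fin n),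
      ¬ Connected π ↔ count 2 0 n (fun f _ => .leaf (w f)) π = 0 := by
  classical
  rcases Nat.lt_or_ge n 2 with hn | hn
  · refine ⟨fun _ => 1, fun π => ?_⟩
    have hc : Connected π := by
      intro a b
      have hab : a = b := by
        have := a.2
        have := b.2
        apply Fin.ext
        omega
      rw [hab]
    have hcount : count (k := k) 2 0 n (fun _ _ => .leaf (1 : ℝ)) π = (k : ℝ) ^ n := by
      unfold count
      simp [Tree.eval]
    rw [hcount]
    refine iff_of_false (fun h' => h' hc) ?_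
    rcases Nat.eq_zero_or_pos n with h0 | h0
    · subst h0
      simp
    · have hk : 1 ≤ k := by
        by_contra hk
        have : k = 0 := by omega
        subst this
        omega
      have : (0 : ℝ) < (k : ℝ) ^ n := by
        have : (0 : ℝ) < k := by exact_mod_cast hk
        positivity
      exact this.ne'
  · obtain ⟨a, ha⟩ := exists_exact hn (numeric (by omega) h)
    refine ⟨fun f => a (fun v => f v 0, fun v => f v 1), fun π => ?_⟩
    rw [ha π]
    have : count 2 0 n (fun f _ => .leaf (a (fun v => f v 0, fun v => f v 1))) π = Phi n k a π := by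
      unfold count
      refine Finset.sum_congr rfl fun y _ => ?_
      change a (fun v => view π y 2 v 0, fun v => view π y 2 v 1) = a (y, y ∘ π)
      congr 1
    rw [this]

/-- **Exact counting against at-least counting.**  Instances are permutations `π` of `n` points,
that is, disjoint unions of directed cycles; witnesses are labellings `y` of the points by `k`
labels. A scheme sees the labels of `π^(-s) v, …, π^(r-1) v` for every point `v`, that is, the
labellings `y ∘ π^i`, `-s ≤ i < r`, and may then ask for `q` values of `π` and `π⁻¹`.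
With few labels exact counting does not decide whether `π` is disconnected; for `s = 0`, `r = 2`
the bound is sharp for real weights up to a constant factor; at-least counting needs two labels. -/
theorem result :
    (∀ n k r s q : ℕ, 1 ≤ k → 1 ≤ r →
      max r s * (k ^ (2 * (r - 1 + s)) + 2 * q + 1) ≤ n →
      ∀ (T : (Fin n → Fin r → Fin k) → (Fin n → Fin s → Fin k) → Tree n ℝ) (t : ℝ),
        (∀ f g, (T f g).Asks q) →
        (∀ π : Perm (Fin n), (∀ v, max r s ≤ Function.minimalPeriod π v) → ¬ Connected π →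
          count r s n T π = t) →
        ∀ π : Perm (Fin n), Connected π → count r s n T π = t) ∧
    (∀ n k r s q : ℕ, 1 ≤ k → 1 ≤ r →
      max r s * (k ^ (2 * (r - 1 + s)) + 2 * q + 1) ≤ n →
      ∀ (T : (Fin n → Fin r → Fin k) → (Fin n → Fin s → Fin k) → Tree n Prop) (t : ℕ),
        (∀ f g, (T f g).Asks q) →
        ∃ π : Perm (Fin n), (∀ v, max r s ≤ Function.minimalPeriod π v) ∧
          ¬ (¬ Connected π ↔ number r s n T π = t)) ∧
    (∀ n k : ℕ, 16 * n ≤ (k + 1) ^ 2 → ∃ w : (Fin n → Fin 2 → Fin k) → ℝ,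
      ∀ π : Perm (Fin n), ¬ Connected π ↔ count 2 0 n (fun f _ => .leaf (w f)) π = 0) ∧
    (∀ n : ℕ, ∀ π : Perm (Fin n),
      ¬ Connected π ↔ 1 ≤ number 2 0 n (fun f _ => .leaf (Split f)) π) := by
  classical
  refine ⟨fun n k r s q hk hr hn T t hT H => part1 hk hr hn T hT id t H,
    fun n k r s q hk hr hn T t hT => part2 hk hr hn T hT t, fun n k h => partSharp h, ?_⟩
  intro n π
  rw [partB]
  unfold number
  rw [Nat.succ_le_iff, Nat.card_pos_iff]
  constructor
  · rintro ⟨y, hy⟩
    exact ⟨⟨⟨y, hy⟩⟩, inferInstance⟩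
  · rintro ⟨⟨⟨y, hy⟩⟩, _⟩
    exact ⟨y, hy⟩

end Pool.Agent.Results.MP_76375d_lc.LocalViews
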