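import Mathlib
import Pool.Agent.Lib.LocalCount.Proper

set_option autoImplicit false

namespace Pool.Agent.Results.MP_76375d_lc.MonadicCase

open Pool.Agent.MIP hiding Satisfiable
open Pool.Agent.LocalCount Pool.Agent.LocalCount.Cnf FirstOrder

/-- UNSAT is decided by a monadic exact counting scheme with threshold `0`. -/
theorem unsat_scheme : ∃ S : ExactScheme cnf, S.Decides fun V _ => ¬ Satisfiable V := by
  refine ⟨⟨1, 1, qrank Cnf.satF, fun _ _ => Cnf.satF, fun _ _ => le_rfl, fun _ _ => 1,
    fun _ => 0⟩, ?_⟩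
  intro V _ _
  unfold ExactScheme.value
  simp only [Finset.univ_unique, one_mul, Finset.sum_singleton, Nat.cast_eq_zero]
  have h : Satisfiable V ↔ 1 ≤ numSets V Cnf.satF := by
    unfold numSets
    rw [Nat.succ_le_iff, Nat.card_pos_iff]
    constructor
    · rintro ⟨X, hX⟩
      exact ⟨⟨⟨fun _ => X, (Cnf.holds_satF _).2 hX⟩⟩, inferInstance⟩
    · rintro ⟨⟨⟨X, hX⟩⟩, _⟩
      exact ⟨X 0, (Cnf.holds_satF X).1 hX⟩
  rw [h]
  omega

/-- **SAT is in monadic NP and UNSAT has a monadic exact counting scheme, but SAT has none:**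
every monadic exact counting scheme is wrong on some CNF formula. -/
theorem result : MonadicNP Satisfiable ∧
    (∃ S : ExactScheme cnf, S.Decides fun V _ => ¬ Satisfiable V) ∧
    ∀ S : ExactScheme cnf, ∃ (V : Type) (_ : Finite V) (_ : cnf.Structure V), Proper V ∧
      ¬ (Satisfiable V ↔ S.value V = S.threshold (Nat.card V)) :=
  ⟨Cnf.sat_monadicNP, unsat_scheme, Cnf.no_scheme_proper⟩

end Pool.Agent.Results.MP_76375d_lc.MonadicCase
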