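import Mathlib
import Pool.Agent.Lib.TPC.Low
import Pool.Agent.Lib.TPC.Upper

set_option autoImplicit false

namespace Pool.Agent.Results.MP_76375d_lc.TwoPartyCounting

open Pool.Agent.AC0IP Pool.Agent.TPC

/-- Consider `k`-CNF formulas with `v` variables, given by `N = (2 v) ^ k` bits, and split the
bits in ANY way into two parts, `A` and its complement, of at least `N / c` bits each.
If `k`-SAT is decided by exact counting of witnesses of `E.len` bits, where the witness predicates
and the threshold have rank at most `R` as matrices (bits in `A`) × (bits outside `A`), then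
`E.len + log R` is at least `N` times a constant depending on `k` and `c` only. But for every `A`
and with rank `1`, `k`-SAT is decided by witnesses of `v` bits with threshold `1` (existence of a
witness), `k`-UNSAT by exact counting of witnesses of `v` bits with threshold `0`, and every set
of formulas by exact counting of witnesses of `N` bits. -/
theorem result (k c v : ℕ) (hk : 3 ≤ k) (hc : 2 ≤ c) (hv : 4 * c * k ^ 2 ≤ v) :
    (∀ A : Set (Clause k v), (2 * v) ^ k ≤ c * A.ncard → (2 * v) ^ k ≤ c * Aᶜ.ncard →
      ∀ (R : ℕ) (E : Counting (Clause k v)), TwoParty A R E → E.Exactly (SAT k v) →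
        v ^ k ≤ 2 * c * k * (2 * k + 2) ^ k * (E.len + 1 + Nat.clog 2 R)) ∧
    ∀ A : Set (Clause k v),
      (∃ E : Counting (Clause k v), E.len = v ∧ TwoParty A 1 E ∧ (∀ z, E.threshold z = 1) ∧
        E.AtLeast (SAT k v)) ∧
      (∃ E : Counting (Clause k v), E.len = v ∧ TwoParty A 1 E ∧ (∀ z, E.threshold z = 0) ∧
        E.Exactly (UNSAT k v)) ∧
      ∀ L : Set (Clause k v → Bool), ∃ E : Counting (Clause k v), E.len = (2 * v) ^ k ∧
        TwoParty A 1 E ∧ E.Exactly L := by
  refine ⟨fun A h1 h2 R E hE hS => low hk hc hv A h1 h2 R E hE hS, fun A =>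
    ⟨up_sat k v A, up_unsat k v A, fun L => ?_⟩⟩
  obtain ⟨E, h1, h2, -, h3⟩ := up_all A L
  refine ⟨E, ?_, h2, h3⟩
  rw [h1, Fintype.card_fun, Fintype.card_prod, Fintype.card_fin, Fintype.card_fin,
    Fintype.card_bool, mul_comm v 2]

end Pool.Agent.Results.MP_76375d_lc.TwoPartyCounting
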